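import Pool.Agent.V1117.Leonard

/-!
# Zero intersections between eigenspace sums for Leonard systems
-/

set_option autoImplicit false

namespace Pool.Agent.Results.MP_105763_al.ZeroIntersection

open Module Pool.Agent.V1117.Leonard

variable {K : Type*} [Field K] {d : ℕ}

theorem repr_of_mem {V : Type*} [AddCommGroup V] [Module K V] {X : End K V}
    {E : Fin (d + 1) → End K V} {θ : Fin (d + 1) → K} {v : Basis (Fin (d + 1)) K V}
    (h : Adapted X E θ v) (L : Set (Fin (d + 1))) {x : V}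
    (hx : x ∈ ⨆ i ∈ L, LinearMap.range (E i)) (j : Fin (d + 1)) (hj : j ∉ L) :
    v.repr x j = 0 := by
  have : (⨆ i ∈ L, LinearMap.range (E i)) ≤ LinearMap.ker (v.coord j) := by
    refine iSup₂_le fun i hi => ?_
    rintro _ ⟨y, rfl⟩
    rw [LinearMap.mem_ker, Basis.coord_apply, h.proj, map_smul, Basis.repr_self]
    have hij : i ≠ j := fun hij => hj (hij ▸ hi)
    simp [hij]
  have h2 := this hx
  rwa [LinearMap.mem_ker, Basis.coord_apply] at h2

/-- **`Q1` is true.** -/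
theorem result (K : Type*) [Field K] (d : ℕ)
    (A : Matrix (Fin (d + 1)) (Fin (d + 1)) K) (E : Fin (d + 1) → Matrix (Fin (d + 1)) (Fin (d + 1)) K)
    (As : Matrix (Fin (d + 1)) (Fin (d + 1)) K)
    (Es : Fin (d + 1) → Matrix (Fin (d + 1)) (Fin (d + 1)) K)
    (h : IsLeonardSystem K A E As Es) (r : ℕ) (hr : r ≤ d) (L : Finset (Fin (d + 1)))
    (hL : L.card ≤ d - r) :
    (⨆ i ∈ {i : Fin (d + 1) | (i : ℕ) ≤ r}, LinearMap.range (Matrix.toLin' (Es i))) ⊓
      (⨆ j ∈ (L : Set (Fin (d + 1))), LinearMap.range (Matrix.toLin' (E j))) = ⊥ := by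
  have h1 := h.map (Matrix.toLinAlgEquiv' (R := K) (n := Fin (d + 1)))
  obtain ⟨θ, w, θs, v, hw, hv, hvA, -, -, -⟩ := h1.bases (by simp)
  rw [Submodule.eq_bot_iff]
  rintro x ⟨hx1, hx2⟩
  refine hvA.eq_zero hw.inj hw.eig r L (by omega) x ?_ ?_
  · intro i hi
    exact repr_of_mem hv {i : Fin (d + 1) | (i : ℕ) ≤ r} hx1 i (by simpa using hi)
  · intro j hj
    exact repr_of_mem hw (L : Set (Fin (d + 1))) hx2 j (by simpa using hj)

end Pool.Agent.Results.MP_105763_al.ZeroIntersection
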